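import Mathlib

/-!
# Steiner triple systems, their block graphs, and the reconstruction of the points

Abstract part: a Steiner triple system is given by its quasigroup operation (idempotent, commutative,
`x ∘ (x ∘ y) = y`); the blocks are the sets `{x, y, x ∘ y}` with `x ≠ y`.
-/

namespace Pool.Agent.STSx

/-- a Steiner triple system on the set `P` of points, as a Steiner quasigroup: the third point of the
block through `x ≠ y` is `op x y` -/
structure Sts (P : Type*) where
  /-- third point of the block through two points -/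
  op : P → P → P
  idem : ∀ x, op x x = x
  comm : ∀ x y, op x y = op y x
  inv : ∀ x y, op x (op x y) = y

namespace Sts

variable {P : Type*} (S : Sts P)

theorem inv' (x y : P) : S.op (S.op x y) y = x := by
  rw [S.comm (S.op x y) y, S.comm x y, S.inv]

theorem op_left_injective (x : P) : Function.Injective (S.op x) := fun y z h => by
  rw [← S.inv x y, h, S.inv]

theorem op_ne_left {x y : P} (h : x ≠ y) : S.op x y ≠ x := fun h1 => by
  apply h
  have h2 := S.inv x y
  rw [h1, S.idem] at h2
  exact h2

theorem op_ne_right {x y : P} (h : x ≠ y) : S.op x y ≠ y := by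
  rw [S.comm]
  exact S.op_ne_left h.symm

variable [DecidableEq P]

/-- the block through `x` and `y` -/
def tri (x y : P) : Finset P := {x, y, S.op x y}

theorem mem_tri {x y p : P} : p ∈ S.tri x y ↔ p = x ∨ p = y ∨ p = S.op x y := by
  simp [tri]

theorem tri_comm (x y : P) : S.tri x y = S.tri y x := by
  ext p
  rw [mem_tri, mem_tri, S.comm]
  tauto

theorem card_tri {x y : P} (h : x ≠ y) : (S.tri x y).card = 3 := by
  rw [tri, Finset.card_eq_three]
  exact ⟨x, y, S.op x y, h, (S.op_ne_left h).symm, (S.op_ne_right h).symm, rfl⟩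

/-- the set of the blocks -/
def IsBlock (b : Finset P) : Prop := ∃ x y, x ≠ y ∧ b = S.tri x y

theorem tri_eq {x y p q : P} (hpq : p ≠ q) (hp : p ∈ S.tri x y) (hq : q ∈ S.tri x y) :
    S.tri x y = S.tri p q := by
  have hinv := S.inv' x y
  rw [mem_tri] at hp hq
  rcases hp with rfl | rfl | rfl <;> rcases hq with rfl | rfl | rfl
  · exact absurd rfl hpq
  · rfl
  · ext r
    rw [mem_tri, mem_tri, S.inv]
    tauto
  · exact S.tri_comm _ _
  · exact absurd rfl hpq
  · ext r
    rw [mem_tri, mem_tri, S.comm p (S.op x p), S.inv']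
    tauto
  · ext r
    rw [mem_tri, mem_tri, S.comm (S.op q y) q, S.inv]
    tauto
  · ext r
    rw [mem_tri, mem_tri, S.inv']
    tauto
  · exact absurd rfl hpq

theorem eq_tri {b : Finset P} (hb : S.IsBlock b) {p q : P} (hpq : p ≠ q) (hp : p ∈ b)
    (hq : q ∈ b) : b = S.tri p q := by
  obtain ⟨x, y, -, rfl⟩ := hb
  exact S.tri_eq hpq hp hq

theorem block_eq {b c : Finset P} (hb : S.IsBlock b) (hc : S.IsBlock c) {p q : P} (hpq : p ≠ q)
    (hp : p ∈ b) (hq : q ∈ b) (hp' : p ∈ c) (hq' : q ∈ c) : b = c :=
  (S.eq_tri hb hpq hp hq).trans (S.eq_tri hc hpq hp' hq').symm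

theorem card_block {b : Finset P} (hb : S.IsBlock b) : b.card = 3 := by
  obtain ⟨x, y, h, rfl⟩ := hb
  exact S.card_tri h

/-- the type of the blocks -/
abbrev Block := {b : Finset P // S.IsBlock b}

/-- the block graph: two different blocks are adjacent iff they have a common point -/
def bg : SimpleGraph S.Block where
  Adj b c := b ≠ c ∧ ∃ p, p ∈ b.1 ∧ p ∈ c.1
  symm := ⟨fun _ _ h => ⟨h.1.symm, h.2.imp fun _ h => ⟨h.2, h.1⟩⟩⟩
  loopless := ⟨fun _ h => h.1 rfl⟩

end Sts

end Pool.Agent.STSx
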