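import Pool.Agent.STSx.Blk

/-!
# The block graph of a Steiner triple system with at least 17 points determines the system
-/

namespace Pool.Agent.STSx

namespace Sts

variable {P : Type*} (S : Sts P) [DecidableEq P]

/-- the block through two different points -/
def blk {x y : P} (h : x ≠ y) : S.Block := ⟨S.tri x y, x, y, h, rfl⟩

theorem mem_blk_left {x y : P} (h : x ≠ y) : x ∈ (S.blk h).1 := S.mem_tri.mpr (Or.inl rfl)

theorem mem_blk_right {x y : P} (h : x ≠ y) : y ∈ (S.blk h).1 :=
  S.mem_tri.mpr (Or.inr (Or.inl rfl))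

theorem block_ext {b c : S.Block} {p q : P} (hpq : p ≠ q) (hp : p ∈ b.1) (hq : q ∈ b.1)
    (hp' : p ∈ c.1) (hq' : q ∈ c.1) : b = c :=
  Subtype.ext (S.block_eq b.2 c.2 hpq hp hq hp' hq')

theorem eq_blk {b : S.Block} {p q : P} (hpq : p ≠ q) (hp : p ∈ b.1) (hq : q ∈ b.1) :
    b = S.blk hpq :=
  S.block_ext hpq hp hq (S.mem_blk_left hpq) (S.mem_blk_right hpq)

/-- a set of pairwise intersecting blocks without a common point has at most seven members -/
theorem clique_card {K : Finset S.Block}
    (hK : ∀ b ∈ K, ∀ c ∈ K, ∃ p, p ∈ b.1 ∧ p ∈ c.1)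
    (hno : ∀ p, ∃ b ∈ K, p ∉ b.1) : K.card ≤ 7 := by
  classical
  have h3 : ∀ p, (K.filter fun b => p ∈ b.1).card ≤ 3 := by
    intro p
    obtain ⟨b0, hb0, hp⟩ := hno p
    rw [← S.card_block b0.2]
    have : Nonempty P := ⟨p⟩
    choose! f hf using fun (b : S.Block) (hb : b ∈ K) => hK b hb b0 hb0
    refine Finset.card_le_card_of_injOn f (fun b hb => ?_) ?_
    · rw [Finset.mem_coe, Finset.mem_filter] at hb
      exact (hf b hb.1).2
    · intro b hb c hc hbc
      rw [Finset.mem_coe, Finset.mem_filter] at hb hc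
      have hne : p ≠ f b := fun h => hp (h ▸ (hf b hb.1).2)
      exact S.block_ext hne hb.2 (hf b hb.1).1 hc.2 (hbc ▸ (hf c hc.1).1)
  rcases K.eq_empty_or_nonempty with rfl | ⟨b1, hb1⟩
  · simp
  · have hsub : K.erase b1 ⊆ b1.1.biUnion fun p => (K.filter fun b => p ∈ b.1).erase b1 := by
      intro b hb
      rw [Finset.mem_erase] at hb
      obtain ⟨p, hp, hp1⟩ := hK b hb.2 b1 hb1
      rw [Finset.mem_biUnion]
      exact ⟨p, hp1, Finset.mem_erase.mpr ⟨hb.1, Finset.mem_filter.mpr ⟨hb.2, hp⟩⟩⟩
    have h1 : (K.erase b1).card ≤ 3 * 2 := by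
      refine (Finset.card_le_card hsub).trans ?_
      refine (Finset.card_biUnion_le).trans ?_
      rw [← S.card_block b1.2, ← smul_eq_mul]
      refine Finset.sum_le_card_nsmul _ _ _ fun p hp => ?_
      have hmem : b1 ∈ K.filter fun b => p ∈ b.1 := Finset.mem_filter.mpr ⟨hb1, hp⟩
      rw [Finset.card_erase_of_mem hmem]
      have := h3 p
      omega
    rw [Finset.card_erase_of_mem hb1] at h1
    omega

variable [Fintype P]

noncomputable instance : Fintype S.Block := by
  classical
  exact inferInstanceAs (Fintype {b : Finset P // S.IsBlock b})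

/-- the blocks through a point -/
noncomputable def star (p : P) : Finset S.Block := by
  classical
  exact Finset.univ.filter fun b => p ∈ b.1

theorem mem_star {p : P} {b : S.Block} : b ∈ S.star p ↔ p ∈ b.1 := by
  classical
  rw [star, Finset.mem_filter]
  simp

theorem card_star (p : P) : 2 * (S.star p).card + 1 = Fintype.card P := by
  classical
  have h1 : (Finset.univ.erase p : Finset P) = (S.star p).biUnion fun b => b.1.erase p := by
    ext q
    rw [Finset.mem_erase, Finset.mem_biUnion]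
    constructor
    · rintro ⟨hq, -⟩
      exact ⟨S.blk hq.symm, S.mem_star.mpr (S.mem_blk_left _),
        Finset.mem_erase.mpr ⟨hq, S.mem_blk_right _⟩⟩
    · rintro ⟨b, -, hq⟩
      exact ⟨(Finset.mem_erase.mp hq).1, Finset.mem_univ _⟩
  have h2 : (Finset.univ.erase p : Finset P).card = ∑ b ∈ S.star p, (b.1.erase p).card := by
    rw [h1]
    refine Finset.card_biUnion fun b hb c hc hbc => ?_
    show Disjoint (b.1.erase p) (c.1.erase p)
    rw [Finset.disjoint_left]
    intro q hq hq'
    rw [Finset.mem_erase] at hq hq'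
    exact hbc (S.block_ext hq.1 hq.2 (S.mem_star.mp hb) hq'.2 (S.mem_star.mp hc))
  have h3 : ∑ b ∈ S.star p, (b.1.erase p).card = ∑ b ∈ S.star p, 2 := by
    refine Finset.sum_congr rfl fun b hb => ?_
    rw [Finset.card_erase_of_mem (S.mem_star.mp hb), S.card_block b.2]
  rw [h3, Finset.sum_const, smul_eq_mul, Finset.card_erase_of_mem (Finset.mem_univ p),
    Finset.card_univ] at h2
  have h4 : 0 < Fintype.card P := Fintype.card_pos_iff.mpr ⟨p⟩
  omega

variable {S}

/-- a graph isomorphism maps the star of a point onto the star of a point -/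
theorem exists_point {Q : Type*} [DecidableEq Q] [Fintype Q] {T : Sts Q}
    (hP : 17 ≤ Fintype.card P) (φ : S.bg ≃g T.bg) (p : P) :
    ∃ q : Q, ∀ b : S.Block, p ∈ b.1 → q ∈ (φ b).1 := by
  classical
  by_contra hcon
  push Not at hcon
  have h1 := T.clique_card (K := (S.star p).map φ.toEquiv.toEmbedding) (by
    intro b hb c hc
    rw [Finset.mem_map] at hb hc
    obtain ⟨b, hb, rfl⟩ := hb
    obtain ⟨c, hc, rfl⟩ := hc
    rcases eq_or_ne b c with rfl | hbc
    · obtain ⟨x, hx⟩ : (φ b).1.Nonempty :=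
        Finset.card_pos.mp (by rw [T.card_block (φ b).2]; norm_num)
      exact ⟨x, hx, hx⟩
    · have h2 : S.bg.Adj b c := ⟨hbc, p, S.mem_star.mp hb, S.mem_star.mp hc⟩
      exact (φ.map_rel_iff.mpr h2).2) (by
    intro q
    obtain ⟨b, hb, hq⟩ := hcon q
    exact ⟨φ b, Finset.mem_map.mpr ⟨b, S.mem_star.mpr hb, rfl⟩, hq⟩)
  rw [Finset.card_map] at h1
  have h2 := S.card_star p
  omega

theorem eq_of_forall_block (hP : 17 ≤ Fintype.card P) {p q : P}
    (h : ∀ b : S.Block, p ∈ b.1 → q ∈ b.1) : q = p := by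
  by_contra hqp
  have h1 := S.card_star p
  have h2 : (S.star p).card ≤ 1 := by
    rw [Finset.card_le_one]
    intro b hb c hc
    have hb' := S.mem_star.mp hb
    have hc' := S.mem_star.mp hc
    exact S.block_ext hqp (h b hb') hb' (h c hc') hc'
  omega

/-- an isomorphism of the block graphs comes from an isomorphism of the Steiner triple systems -/
theorem exists_equiv {Q : Type*} [DecidableEq Q] [Fintype Q] {T : Sts Q}
    (hP : 17 ≤ Fintype.card P) (hQ : 17 ≤ Fintype.card Q) (φ : S.bg ≃g T.bg) :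
    ∃ σ : P ≃ Q, ∀ x y, σ (S.op x y) = T.op (σ x) (σ y) := by
  choose f hf using fun p => exists_point hP φ p
  choose g hg using fun q => exists_point hQ φ.symm q
  have hgf : ∀ p, g (f p) = p := by
    intro p
    apply eq_of_forall_block hP
    intro b hb
    have := hg (f p) (φ b) (hf p b hb)
    rwa [RelIso.symm_apply_apply] at this
  have hfg : ∀ q, f (g q) = q := by
    intro q
    apply eq_of_forall_block hQ
    intro b hb
    have := hf (g q) (φ.symm b) (hg q b hb)
    rwa [RelIso.apply_symm_apply] at this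
  have hinj : Function.Injective f := fun x y h => by rw [← hgf x, h, hgf]
  refine ⟨⟨f, g, hgf, hfg⟩, fun x y => ?_⟩
  show f (S.op x y) = T.op (f x) (f y)
  rcases eq_or_ne x y with rfl | hxy
  · rw [S.idem, T.idem]
  · have h1 := hf x (S.blk hxy) (S.mem_blk_left hxy)
    have h2 := hf y (S.blk hxy) (S.mem_blk_right hxy)
    have h3 := hf (S.op x y) (S.blk hxy) (S.mem_tri.mpr (Or.inr (Or.inr rfl)))
    rw [T.eq_tri (φ (S.blk hxy)).2 (fun h => hxy (hinj h)) h1 h2, T.mem_tri] at h3
    rcases h3 with h3 | h3 | h3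
    · exact absurd (hinj h3) (S.op_ne_left hxy)
    · exact absurd (hinj h3) (S.op_ne_right hxy)
    · exact h3

end Sts

end Pool.Agent.STSx
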